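import Pool.Agent.Helper37.OF.St2

/-!
# Project OF, part 2, module ST2: structure of the relators, with the list of points
-/

set_option autoImplicit false

namespace Pool.Agent.Helper95.OF

open Pool.Agent.Helper37.OF Monoid Pool.Agent.Helper4.FS

universe u v w x

private theorem cc_ne {A : Type u} {Q : Type x} {G : Type w} [Group A] [Group Q] [Group G]
    (π : A →* Q) (f : π.ker →* G) (s : Q → A) (a : A) (q : Q) (L : List A) (hG : Gd π f L)
    (ha : a ∈ L) (h1 : π a = 1) : cc π f s a q ≠ 1 := by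
  have hk : (s (π a * q))⁻¹ * a * s q ∈ π.ker := by
    rw [h1, one_mul, MonoidHom.mem_ker, map_mul, map_mul, map_inv, h1]
    simp
  have e : (s (π a * q))⁻¹ * a * s q = (s q)⁻¹ * a * s q := by rw [h1, one_mul]
  have hk' : (s q)⁻¹ * a * s q ∈ π.ker := by rw [← e]; exact hk
  have h2 := hG a ha (s q) hk'
  have e2 : (⟨(s (π a * q))⁻¹ * a * s q, hk⟩ : π.ker) = ⟨(s q)⁻¹ * a * s q, hk'⟩ :=
    Subtype.ext e
  rw [cc, dif_pos hk, e2]
  exact h2

section

variable {A : Type u} {B : Type v} {Q : Type x} {G : Type w} [Group A] [Group B] [Group Q]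
  [Group G] (πA : A →* Q) (πB : B →* Q)

private theorem lift_cons (p : A × B) (l : List (A × B)) :
    Coprod.lift πA πB (wd (p :: l)) = πA p.1 * (πB p.2 * Coprod.lift πA πB (wd l)) := by
  rw [wd_cons, map_mul, map_mul, Coprod.lift_apply_inl, Coprod.lift_apply_inr, mul_assoc]

variable (f : πA.ker →* G) (g : πB.ker →* G) (s : Q → A) (s' : Q → B)

private theorem bl_pts (l : List (A × B)) (q : Q) :
    (bl πA πB f g s s' l q).map (fun p => (p.2.1, p.2.2.2)) =
      (pts πA πB l).map (fun p => (p.1 * q, p.2 * q)) := by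
  induction l with
  | nil => simp [bl, pts]
  | cons p l ih =>
    rw [bl, pts, List.map_cons, List.map_cons, ih]
    simp only [mul_assoc]

private theorem mem1 (l : List (A × B)) (q : Q) : ∀ t ∈ bl πA πB f g s s' l q,
    (∃ c ∈ pp' (pts πA πB l), t.2.1 = c * q) ∧ ∃ c ∈ pp' (pts πA πB l), t.2.2.2 = c * q := by
  intro t ht
  have h : (t.2.1, t.2.2.2) ∈ (bl πA πB f g s s' l q).map (fun p => (p.2.1, p.2.2.2)) :=
    List.mem_map.2 ⟨t, ht, rfl⟩
  rw [bl_pts] at h
  obtain ⟨p, hp, e⟩ := List.mem_map.1 h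
  refine ⟨⟨p.1, List.mem_append.2 (Or.inl (List.mem_map.2 ⟨p, hp, rfl⟩)), ?_⟩,
    ⟨p.2, List.mem_append.2 (Or.inr (List.mem_map.2 ⟨p, hp, rfl⟩)), ?_⟩⟩
  · exact (congrArg Prod.fst e).symm
  · exact (congrArg Prod.snd e).symm

private theorem mem2 (l : List (A × B)) (q : Q) : ∀ c ∈ pp' (pts πA πB l),
    ∃ t ∈ bl πA πB f g s s' l q, t.2.1 = c * q ∨ t.2.2.2 = c * q := by
  intro c hc
  have key : ∀ p ∈ pts πA πB l, ∃ t ∈ bl πA πB f g s s' l q,
      t.2.1 = p.1 * q ∧ t.2.2.2 = p.2 * q := by
    intro p hp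
    have h : (p.1 * q, p.2 * q) ∈ (pts πA πB l).map (fun p => (p.1 * q, p.2 * q)) :=
      List.mem_map.2 ⟨p, hp, rfl⟩
    rw [← bl_pts πA πB f g s s'] at h
    obtain ⟨t, ht, e⟩ := List.mem_map.1 h
    exact ⟨t, ht, congrArg Prod.fst e, congrArg Prod.snd e⟩
  rcases List.mem_append.1 hc with h | h
  · obtain ⟨p, hp, rfl⟩ := List.mem_map.1 h
    obtain ⟨t, ht, e, _⟩ := key p hp
    exact ⟨t, ht, Or.inl e⟩
  · obtain ⟨p, hp, rfl⟩ := List.mem_map.1 h
    obtain ⟨t, ht, _, e⟩ := key p hp
    exact ⟨t, ht, Or.inr e⟩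

private theorem h1c (l : List (A × B)) (q : Q) (L : List B) (hB : Gd πB g L)
    (hL : ∀ p ∈ l, p.2 ∈ L) : ∀ t ∈ bl πA πB f g s s' l q, t.2.1 = t.2.2.2 → t.2.2.1 ≠ 1 := by
  induction l with
  | nil => intro t ht; simp [bl] at ht
  | cons p l ih =>
    intro t ht
    rw [bl, List.mem_cons] at ht
    rcases ht with rfl | ht
    · intro h
      simp only at h ⊢
      have h1 : πB p.2 = 1 := by
        have h2 : πB p.2 * (Coprod.lift πA πB (wd l) * q) =
            1 * (Coprod.lift πA πB (wd l) * q) := by rw [one_mul]; exact h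
        exact mul_right_cancel h2
      exact cc_ne πB g s' p.2 _ L hB (hL p List.mem_cons_self) h1
    · exact ih (fun p hp => hL p (List.mem_cons_of_mem _ hp)) t ht

private theorem h2c (l : List (A × B)) (q : Q) (L : List A) (hA : Gd πA f L)
    (hL : ∀ p ∈ l, p.1 ∈ L) :
    (bl πA πB f g s s' l q).IsChain (fun p q => p.2.2.2 = q.2.1 → q.1 ≠ 1) := by
  induction l with
  | nil => rw [bl]; exact List.IsChain.nil
  | cons p l ih =>
    have ih' := ih (fun p hp => hL p (List.mem_cons_of_mem _ hp))
    cases l with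
    | nil => rw [bl, bl]; exact List.IsChain.singleton _
    | cons p' l' =>
      rw [bl]
      rw [bl] at ih' ⊢
      refine List.isChain_cons_cons.2 ⟨?_, ih'⟩
      intro h
      simp only at h ⊢
      rw [lift_cons, mul_assoc, mul_assoc] at h
      have h1 : πA p'.1 = 1 := by
        have h2 : πA p'.1 * (πB p'.2 * (Coprod.lift πA πB (wd l') * q)) =
            1 * (πB p'.2 * (Coprod.lift πA πB (wd l') * q)) := by rw [one_mul]; exact h
        exact mul_right_cancel h2
      exact cc_ne πA f s p'.1 _ L hA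
        (hL p' (List.mem_cons_of_mem _ List.mem_cons_self)) h1

private theorem bl_ne (l : List (A × B)) (hl : l ≠ []) (q : Q) :
    bl πA πB f g s s' l q ≠ [] := by
  cases l with
  | nil => exact absurd rfl hl
  | cons p l => rw [bl]; exact List.cons_ne_nil _ _

private theorem last_eq (l : List (A × B)) (q : Q) (h : bl πA πB f g s s' l q ≠ []) :
    ((bl πA πB f g s s' l q).getLast h).2.2.2 = q := by
  induction l with
  | nil => exact absurd rfl h
  | cons p l ih =>
    cases l with
    | nil =>
      simp only [bl, List.getLast_singleton]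
      rw [wd_nil, map_one, one_mul]
    | cons p' l' =>
      have hne := bl_ne πA πB f g s s' (p' :: l') (List.cons_ne_nil _ _) q
      have e : bl πA πB f g s s' (p :: p' :: l') q =
        (cc πA f s p.1 (πB p.2 * (Coprod.lift πA πB (wd (p' :: l')) * q)),
        πB p.2 * (Coprod.lift πA πB (wd (p' :: l')) * q),
        cc πB g s' p.2 (Coprod.lift πA πB (wd (p' :: l')) * q),
        Coprod.lift πA πB (wd (p' :: l')) * q) :: bl πA πB f g s s' (p' :: l') q := by
        rw [bl]
      have e2 : (bl πA πB f g s s' (p :: p' :: l') q).getLast h =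
          (bl πA πB f g s s' (p' :: l') q).getLast hne := by
        simp only [e]
        exact List.getLast_cons hne
      rw [e2]
      exact ih hne

end

theorem hST2 (hWRD : StWRD.{w, x}) : StST2.{u, v, w, x} := by
  classical
  intro A B Q G _ _ _ _ πA πB f g s s' _ _ τ hτ l hl h1 hA hB q
  refine ⟨bl_pts πA πB f g s s' l q, ?_, ?_⟩
  · rw [Wq]
    refine Subgroup.list_prod_mem _ ?_
    intro t ht
    obtain ⟨p, hp, rfl⟩ := List.mem_map.1 ht
    obtain ⟨⟨c, hc, e1⟩, ⟨c', hc', e2⟩⟩ := mem1 πA πB f g s s' l q p hp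
    have hn : (none : Option Q) ∈
        {i : Option Q | ∀ y, i = some y → ∃ c ∈ pp' (pts πA πB l), y = c * q} := by
      intro y hy
      exact absurd hy (by simp)
    have hx : (some p.2.1 : Option Q) ∈
        {i : Option Q | ∀ y, i = some y → ∃ c ∈ pp' (pts πA πB l), y = c * q} := by
      intro y hy
      exact ⟨c, hc, by rw [← Option.some.inj hy, e1]⟩
    have hy : (some p.2.2.2 : Option Q) ∈
        {i : Option Q | ∀ y, i = some y → ∃ c ∈ pp' (pts πA πB l), y = c * q} := by
      intro y hy
      exact ⟨c', hc', by rw [← Option.some.inj hy, e2]⟩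
    exact Subgroup.mul_mem _ (Subgroup.mul_mem _ (Subgroup.mul_mem _ (ofi_mem hn _)
      (ofi_mem hx _)) (ofi_mem hn _)) (Subgroup.inv_mem _ (ofi_mem hy _))
  · intro c hc
    have hne := bl_ne πA πB f g s s' l hl q
    have hlast := last_eq πA πB f g s s' l q hne
    have key := hWRD G Q τ (bl πA πB f g s s' l q) hne hτ
      (h1c πA πB f g s s' l q _ hB (fun p hp => List.mem_map_of_mem hp))
      (h2c πA πB f g s s' l q _ hA (fun p hp => List.mem_map_of_mem hp))
      (by
        rw [hlast]
        intro h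
        cases l with
        | nil => exact absurd rfl hl
        | cons p l =>
          have e : (bl πA πB f g s s' (p :: l) q).head hne =
            (cc πA f s p.1 (πB p.2 * (Coprod.lift πA πB (wd l) * q)),
            πB p.2 * (Coprod.lift πA πB (wd l) * q),
            cc πB g s' p.2 (Coprod.lift πA πB (wd l) * q),
            Coprod.lift πA πB (wd l) * q) := by
            simp only [bl, List.head_cons]
          rw [e] at h ⊢
          simp only at h ⊢
          rw [lift_cons] at h1
          have h2 : πA p.1 = 1 := by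
            have h3 : πA p.1 * (πB p.2 * (Coprod.lift πA πB (wd l) * q)) = q := by
              rw [← mul_assoc (πB p.2), ← mul_assoc, h1, one_mul]
            rw [← h] at h3
            exact mul_eq_right.1 h3
          exact cc_ne πA f s p.1 _ _ hA (by simp) h2)
    obtain ⟨t, ht, h⟩ := mem2 πA πB f g s s' l q c hc
    rcases h with h | h
    · rw [← h]; exact (key t ht).1
    · rw [← h]; exact (key t ht).2

end Pool.Agent.Helper95.OF
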